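import Pool.Agent.W5h23.CD.Main
import Pool.Agent.TH507.ZS.Inst

/-!
# The coefficients of `ζ(2s) / ζ(s) ^ 2` are nonzero integers
-/

set_option autoImplicit false

namespace Pool.Agent.W5h23.CD

open ArithmeticFunction Pool.Agent.TH507.ZS

/-- values in the integers -/
theorem int_mul {f g : ArithmeticFunction ℚ} (hf : ∀ k, ∃ z : ℤ, f k = z)
    (hg : ∀ k, ∃ z : ℤ, g k = z) (k : ℕ) : ∃ z : ℤ, (f * g) k = z := by
  rw [ArithmeticFunction.mul_apply]
  choose a ha using hf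
  choose b hb using hg
  refine ⟨∑ x ∈ k.divisorsAntidiagonal, a x.1 * b x.2, ?_⟩
  push_cast
  exact Finset.sum_congr rfl fun x _ => by rw [ha, hb]

theorem mQ_int (k : ℕ) : ∃ z : ℤ, mQ k = z := ⟨ArithmeticFunction.moebius k, by simp [mQ]⟩

theorem sqQ_int (k : ℕ) : ∃ z : ℤ, sqQ k = z := by
  rw [sqQ_apply]
  split_ifs
  · exact ⟨1, by simp⟩
  · exact ⟨0, by simp⟩

theorem tQ_int (k : ℕ) : ∃ z : ℤ, tQ k = z := int_mul sqQ_int (int_mul mQ_int mQ_int) k

theorem mul_zQ_pow (f : ArithmeticFunction ℚ) {p : ℕ} (hp : p.Prime) (e : ℕ) :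
    (f * zQ) (p ^ e) = ∑ i ∈ Finset.range (e + 1), f (p ^ i) := by
  rw [zQ, coe_mul_zeta_apply, Nat.sum_divisors_prime_pow hp]

theorem sqQ_pow {p : ℕ} (hp : p.Prime) (e : ℕ) : sqQ (p ^ e) = if Even e then 1 else 0 := by
  have hp0 : p ^ e ≠ 0 := pow_ne_zero _ hp.ne_zero
  rw [sqQ_apply]
  congr 1
  rw [eq_iff_iff]
  constructor
  · rintro ⟨-, c, hc⟩
    have h1 : (p ^ e).factorization p = (c * c).factorization p := by rw [hc]
    have hc0 : c ≠ 0 := by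
      rintro rfl
      rw [mul_zero] at hc
      exact hp0 hc
    rw [Nat.factorization_mul hc0 hc0, hp.factorization_pow] at h1
    simp only [Finsupp.single_eq_same, Finsupp.coe_add, Pi.add_apply] at h1
    exact ⟨_, h1⟩
  · rintro ⟨c, hc⟩
    exact ⟨hp0, p ^ c, by rw [hc, pow_add]⟩

theorem tQ_zQ : tQ * zQ * zQ = sqQ := by
  have h1 : mQ * zQ = 1 := by rw [mul_comm]; exact zQ_mul_mQ
  calc tQ * zQ * zQ = sqQ * ((mQ * zQ) * (mQ * zQ)) := by rw [tQ]; ring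
    _ = sqQ := by rw [h1, one_mul, mul_one]

theorem tQ_pow {p : ℕ} (hp : p.Prime) (e : ℕ) : tQ (p ^ (e + 1)) = 2 * (-1) ^ (e + 1) := by
  have h1 : ∀ e : ℕ, (tQ * zQ) (p ^ (e + 1)) = sqQ (p ^ (e + 1)) - sqQ (p ^ e) := by
    intro e
    have h2 := mul_zQ_pow (tQ * zQ) hp (e + 1)
    have h3 := mul_zQ_pow (tQ * zQ) hp e
    rw [tQ_zQ] at h2 h3
    rw [Finset.sum_range_succ, ← h3] at h2
    linarith
  have h2 : ∀ e : ℕ, (tQ * zQ) (p ^ e) = (-1) ^ e := by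
    intro e
    rcases e with _ | e
    · rw [pow_zero, pow_zero]
      exact (tQ_mult.mul zQ_mult).1
    · rw [h1, sqQ_pow hp, sqQ_pow hp]
      rcases Nat.even_or_odd e with h | h
      · rw [if_pos h, if_neg (Nat.not_even_iff_odd.2 h.add_one), (h.add_one).neg_one_pow]
        norm_num
      · rw [if_neg (Nat.not_even_iff_odd.2 h), if_pos h.add_one, (h.add_one).neg_one_pow]
        norm_num
  have h3 := mul_zQ_pow tQ hp (e + 1)
  have h4 := mul_zQ_pow tQ hp e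
  rw [Finset.sum_range_succ, ← h4, h2, h2] at h3
  have h5 : (-1 : ℚ) ^ (e + 1) = -(-1) ^ e := by rw [pow_succ]; ring
  rw [h5] at h3 ⊢
  linarith

theorem tQ_ne_zero (k : ℕ) (hk : k ≠ 0) : tQ k ≠ 0 := by
  induction k using Nat.recOnPosPrimePosCoprime with
  | prime_pow p n hp hn =>
    obtain ⟨e, rfl⟩ : ∃ e, n = e + 1 := ⟨n - 1, by omega⟩
    rw [tQ_pow hp]
    positivity
  | zero => exact absurd rfl hk
  | one => rw [tQ_mult.1]; exact one_ne_zero
  | coprime a b ha hb hab iha ihb =>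
    rw [tQ_mult.2 hab]
    exact mul_ne_zero (iha (by omega)) (ihb (by omega))

theorem good_t : ∃ A : ℕ, Good (fun k => (tQ k : ℝ)) A := by
  obtain ⟨A, hA⟩ := tQ_pb
  refine ⟨2 * A, ⟨?_, ?_, ?_⟩⟩
  · rw [tQ_mult.1, Rat.cast_one]
  · intro k hk
    obtain ⟨z, hz⟩ := tQ_int k
    have h1 := tQ_ne_zero k (by omega)
    rw [hz] at h1 ⊢
    have h2 : z ≠ 0 := by
      rintro rfl
      simp at h1
    rw [Rat.cast_intCast]
    exact_mod_cast Int.one_le_abs h2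
  · intro k hk
    rcases Nat.lt_or_ge k 2 with h2 | h2
    · obtain rfl : k = 1 := by omega
      rw [tQ_mult.1]
      simp
    · have h3 : (A : ℝ) ≤ (k : ℝ) ^ A := by
        have h4 : A < 2 ^ A := Nat.lt_two_pow_self
        have h5 : (2 : ℕ) ^ A ≤ k ^ A := Nat.pow_le_pow_left h2 A
        exact_mod_cast h4.le.trans h5
      calc |((tQ k : ℚ) : ℝ)| ≤ A * (k : ℝ) ^ A := hA k hk
        _ ≤ (k : ℝ) ^ A * (k : ℝ) ^ A := mul_le_mul_of_nonneg_right h3 (by positivity)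
        _ = (k : ℝ) ^ (2 * A) := by rw [← pow_add]; congr 1; ring

end Pool.Agent.W5h23.CD
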