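import Pool.Agent.W5h23.CD.Form

/-!
# The linear forms, asymptotically
-/

set_option autoImplicit false

namespace Pool.Agent.W5h23.CD

open Finset Filter

/-- elementary inequality for the powers -/
theorem pow_exp {j s n : ℕ} (hj : 1 ≤ j) (hs : 2 ≤ s) (hjs : j ≤ s + 1) :
    Real.exp ((n : ℝ) / (2 * s)) * (j : ℝ) ^ n ≤ ((j + 1 : ℕ) : ℝ) ^ n := by
  have hj0 : (0 : ℝ) < j := by exact_mod_cast hj
  have hs0 : (0 : ℝ) < s := by exact_mod_cast (by omega : 0 < s)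
  have h1 : Real.exp (1 / (2 * s : ℝ)) * j ≤ ((j + 1 : ℕ) : ℝ) := by
    have h2 := Real.add_one_le_exp (-(1 / ((j + 1 : ℕ) : ℝ)))
    have hj1 : (0 : ℝ) < ((j + 1 : ℕ) : ℝ) := by positivity
    have h3 : (j : ℝ) / ((j + 1 : ℕ) : ℝ) ≤ Real.exp (-(1 / ((j + 1 : ℕ) : ℝ))) := by
      refine le_trans (le_of_eq ?_) h2
      field_simp
      push_cast
      ring
    have h4 : Real.exp (1 / (2 * s : ℝ)) ≤ Real.exp (1 / ((j + 1 : ℕ) : ℝ)) := by
      rw [Real.exp_le_exp]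
      refine one_div_le_one_div_of_le hj1 ?_
      have : j + 1 ≤ 2 * s := by omega
      exact_mod_cast this
    rw [Real.exp_neg, div_le_iff₀ hj1] at h3
    have h5 : 0 < Real.exp (1 / ((j + 1 : ℕ) : ℝ)) := Real.exp_pos _
    calc Real.exp (1 / (2 * s : ℝ)) * j ≤ Real.exp (1 / ((j + 1 : ℕ) : ℝ)) * j :=
          mul_le_mul_of_nonneg_right h4 hj0.le
      _ ≤ Real.exp (1 / ((j + 1 : ℕ) : ℝ)) *
            ((Real.exp (1 / ((j + 1 : ℕ) : ℝ)))⁻¹ * ((j + 1 : ℕ) : ℝ)) :=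
          mul_le_mul_of_nonneg_left h3 h5.le
      _ = ((j + 1 : ℕ) : ℝ) := by field_simp
  calc Real.exp ((n : ℝ) / (2 * s)) * (j : ℝ) ^ n =
        (Real.exp (1 / (2 * s : ℝ)) * j) ^ n := by
        rw [mul_pow, ← Real.exp_nat_mul]
        congr 2
        ring
    _ ≤ _ := pow_le_pow_left₀ (by positivity) h1 n

theorem ev_n0 (C η ε : ℝ) (hC : 0 < C) (hη : 0 < η) (hε : 0 < ε) :
    ∃ n0 : ℕ, ∀ n : ℕ, n0 ≤ n → 10 ≤ Real.log n ∧
      2 * C / η * Real.log n * (n : ℝ) ^ (1 - ε) ≤ ε * n := by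
  have h1 : ∀ᶠ x : ℝ in atTop, Real.log x ≤ ε * η / (2 * C) * x ^ ε := by
    have h := (isLittleO_log_rpow_atTop hε).bound (show 0 < ε * η / (2 * C) by positivity)
    filter_upwards [h, eventually_gt_atTop 1] with x hx hx1
    rw [Real.norm_of_nonneg (Real.log_nonneg hx1.le),
      Real.norm_of_nonneg (by positivity)] at hx
    exact hx
  have h2 : ∀ᶠ x : ℝ in atTop, 10 ≤ Real.log x := Real.tendsto_log_atTop.eventually_ge_atTop 10
  obtain ⟨x0, hx0⟩ := eventually_atTop.1 ((h1.and h2).and (eventually_gt_atTop 0))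
  refine ⟨⌈x0⌉₊, fun n hn => ?_⟩
  obtain ⟨⟨h3, h4⟩, h5⟩ := hx0 n (Nat.ceil_le.1 hn)
  refine ⟨h4, ?_⟩
  have h6 : (n : ℝ) ^ ε * (n : ℝ) ^ (1 - ε) = n := by
    rw [← Real.rpow_add h5, add_sub_cancel, Real.rpow_one]
  have h7 : (0 : ℝ) ≤ (n : ℝ) ^ (1 - ε) := by positivity
  calc 2 * C / η * Real.log n * (n : ℝ) ^ (1 - ε) ≤
        2 * C / η * (ε * η / (2 * C) * (n : ℝ) ^ ε) * (n : ℝ) ^ (1 - ε) := by
        gcongr
    _ = ε * ((n : ℝ) ^ ε * (n : ℝ) ^ (1 - ε)) := by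
        field_simp
    _ = ε * n := by rw [h6]

/-- **The linear forms, asymptotically.** -/
theorem asymp {g : ℕ → ℝ} {A : ℕ} (hg : Good g A) (ε : ℝ) (hε : 0 < ε) (hε1 : ε ≤ 1) :
    ∃ n0 : ℕ, ∀ n : ℕ, n0 ≤ n → ∀ L : ℕ, 1 ≤ L → ∀ S : Finset ℕ,
      (∀ m ∈ S, n ≤ m ∧ m ≤ n + L) → 2 ≤ S.card → (S.card : ℝ) * L ≤ (n : ℝ) ^ (1 - ε) →
      ∃ (c : ℕ → ℤ) (B : ℝ), 1 ≤ B ∧ (∀ m ∈ S, |(c m : ℝ)| ≤ B) ∧
        (S.card : ℝ) * B ≤ (1 + ε) ^ n ∧
        4 * (S.card * B) * (1 / (n : ℝ) ^ n) < |∑ m ∈ S, (c m : ℝ) * (FF g m - 1)| ∧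
        |∑ m ∈ S, (c m : ℝ) * (FF g m - 1)| * ((1 - ε) * S.card) ^ n ≤ 1 := by
  set η : ℝ := ε / 2 with hη
  have hη0 : 0 < η := by positivity
  have hη1 : η ≤ 1 / 2 := by rw [hη]; linarith
  set C : ℝ := 2 * A + 10 with hC
  have hC0 : 0 < C := by positivity
  obtain ⟨n0, hn0⟩ := ev_n0 C η ε hC0 hη0 hε
  refine ⟨n0 + A + 4, fun n hn L hL S hS hs2 hsL => ?_⟩
  obtain ⟨hl10, hkey⟩ := hn0 n (by omega)
  set l : ℝ := Real.log n with hl
  set s : ℕ := S.card with hs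
  obtain ⟨q, hq⟩ : ∃ q, n = q + 2 + A := ⟨n - 2 - A, by omega⟩
  have hnR : (0 : ℝ) < n := by exact_mod_cast (by omega : 0 < n)
  have hn1R : (1 : ℝ) ≤ n := by exact_mod_cast (by omega : 1 ≤ n)
  have hLR : (1 : ℝ) ≤ L := by exact_mod_cast hL
  have hsR : (2 : ℝ) ≤ s := by exact_mod_cast hs2
  have hexpl : Real.exp l = n := Real.exp_log hnR
  -- the choice of `r`
  set r : ℕ := ⌊(1 - η) * s⌋₊ with hr
  have hr0 : 0 ≤ (1 - η) * (s : ℝ) := by
    have : 0 ≤ 1 - η := by linarith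
    positivity
  have hr1 : 1 ≤ r := by
    rw [hr, Nat.one_le_floor_iff]
    nlinarith
  have hrle : (r : ℝ) ≤ (1 - η) * s := Nat.floor_le hr0
  have hrlt : (1 - η) * (s : ℝ) < r + 1 := Nat.lt_floor_add_one _
  have hrs : r < s := by
    have h1 : (r : ℝ) < s := by nlinarith
    exact_mod_cast h1
  obtain ⟨c, j, hjr, hjs, hcB, hlow, hupp⟩ := form hg S n L r q hq hS hr1 hrs
  rw [← hs] at hcB hlow hupp
  set B : ℝ := ((s : ℝ) ^ (L + 1)) ^ ((r : ℝ) / ((s : ℝ) - r)) with hB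
  -- the bound for `B`
  have hsn : (s : ℝ) ≤ n := by
    calc (s : ℝ) ≤ s * L := le_mul_of_one_le_right (by linarith) hLR
      _ ≤ (n : ℝ) ^ (1 - ε) := hsL
      _ ≤ (n : ℝ) ^ (1 : ℝ) := Real.rpow_le_rpow_of_exponent_le hn1R (by linarith)
      _ = n := Real.rpow_one _
  have hlogs : Real.log s ≤ l := Real.log_le_log (by linarith) hsn
  have hlogs0 : 0 ≤ Real.log s := Real.log_nonneg (by linarith)
  have hbase1 : (1 : ℝ) ≤ (s : ℝ) ^ (L + 1) := one_le_pow₀ (by linarith)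
  have hsr : 0 < (s : ℝ) - r := by nlinarith
  have hρ : (r : ℝ) / ((s : ℝ) - r) ≤ 1 / η := by
    rw [div_le_div_iff₀ hsr hη0]
    nlinarith
  have hρ0 : 0 ≤ (r : ℝ) / ((s : ℝ) - r) := by positivity
  have hB1 : 1 ≤ B := Real.one_le_rpow hbase1 hρ0
  have hlL : 0 < L * l / η := by positivity
  have hBe : B ≤ Real.exp (2 * (L * l / η)) := by
    rw [hB, Real.rpow_def_of_pos (by linarith), Real.exp_le_exp, Real.log_pow]
    calc ((L + 1 : ℕ) : ℝ) * Real.log s * ((r : ℝ) / ((s : ℝ) - r)) ≤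
          (2 * L) * l * (1 / η) := by
          have h1 : ((L + 1 : ℕ) : ℝ) ≤ 2 * L := by push_cast; linarith
          have h2 : ((L + 1 : ℕ) : ℝ) * Real.log s ≤ (2 * L) * l :=
            mul_le_mul h1 hlogs hlogs0 (by positivity)
          exact mul_le_mul h2 hρ hρ0 (by positivity)
      _ = 2 * (L * l / η) := by ring
  -- `Q`
  set Q : ℝ := C * (L * l / η) with hQ
  have hkey2 : 2 * (s : ℝ) * Q ≤ ε * n := by
    refine le_trans ?_ hkey
    calc 2 * (s : ℝ) * Q = 2 * C / η * l * (s * L) := by rw [hQ]; ring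
      _ ≤ 2 * C / η * l * (n : ℝ) ^ (1 - ε) := mul_le_mul_of_nonneg_left hsL (by positivity)
  have hQ0 : 0 < Q := by positivity
  have hQ1 : Q ≤ (n : ℝ) / (2 * s) := by
    rw [le_div_iff₀ (by positivity)]
    nlinarith
  have hQ4 : Q ≤ ε * n / 4 := by nlinarith
  have hX : 2 * l ≤ L * l / η := by
    rw [le_div_iff₀ hη0]
    nlinarith
  have hXL : 2 * (L * l) ≤ L * l / η := by
    rw [le_div_iff₀ hη0]
    nlinarith [mul_pos (show (0 : ℝ) < L by linarith) (show 0 < l by linarith)]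
  have hj2 : 3 ≤ j := by omega
  have hj0 : (0 : ℝ) < j := by exact_mod_cast (by omega : 0 < j)
  have hj1e : ((j + 1 : ℕ) : ℝ) ≤ Real.exp (2 * l) := by
    have h1 : ((j + 1 : ℕ) : ℝ) ≤ s + 2 := by exact_mod_cast (by omega : j + 1 ≤ s + 2)
    have h2 : Real.exp (2 * l) = (n : ℝ) * n := by
      rw [two_mul, Real.exp_add, hexpl]
    rw [h2]
    nlinarith
  have hje : (j : ℝ) ≤ Real.exp (2 * l) := by
    refine le_trans ?_ hj1e
    exact_mod_cast Nat.le_succ j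
  have hse : (s : ℝ) ≤ Real.exp l := by rw [hexpl]; exact hsn
  have h2e : (2 : ℝ) ≤ Real.exp 1 := by
    have := Real.add_one_le_exp (1 : ℝ)
    linarith
  -- (a)
  have ha : 2 * (2 * (s * B)) * ((j + 1 : ℕ) : ℝ) ^ (A + 2) * (j : ℝ) ^ L ≤ Real.exp Q := by
    calc 2 * (2 * (s * B)) * ((j + 1 : ℕ) : ℝ) ^ (A + 2) * (j : ℝ) ^ L ≤
          Real.exp 1 * (Real.exp 1 * (Real.exp l * Real.exp (2 * (L * l / η)))) *
            (Real.exp (2 * l)) ^ (A + 2) * (Real.exp (2 * l)) ^ L := by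
          gcongr
      _ = Real.exp (1 + (1 + (l + 2 * (L * l / η))) + ((A + 2 : ℕ) : ℝ) * (2 * l) +
            (L : ℝ) * (2 * l)) := by
          rw [← Real.exp_nat_mul, ← Real.exp_nat_mul, ← Real.exp_add, ← Real.exp_add,
            ← Real.exp_add, ← Real.exp_add, ← Real.exp_add]
      _ ≤ Real.exp Q := by
          rw [Real.exp_le_exp, hQ, hC]
          push_cast
          have hA0 : (0 : ℝ) ≤ A := Nat.cast_nonneg A
          have h3 : (A : ℝ) * (2 * l) ≤ A * (L * l / η) := mul_le_mul_of_nonneg_left hX hA0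
          have h4 : (A : ℝ) * (L * l / η) ≤ 2 * A * (L * l / η) := by nlinarith
          nlinarith
  have hL1 : (1 : ℝ) ≤ (j : ℝ) ^ L := one_le_pow₀ (by exact_mod_cast (by omega : 1 ≤ j))
  have hp1 : (0 : ℝ) < ((j + 1 : ℕ) : ℝ) := by positivity
  have hqn : ∀ x : ℝ, x ^ n = x ^ q * x ^ (A + 2) := by
    intro x
    rw [← pow_add]
    congr 1
    omega
  -- the lower bound
  have hlow2 : 1 / (2 * (j : ℝ) ^ (n + L)) ≤ |∑ m ∈ S, (c m : ℝ) * (FF g m - 1)| := by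
    refine le_trans ?_ hlow
    have h1 : 2 * (2 * (s * B)) * ((j + 1 : ℕ) : ℝ) ^ (A + 2) * (j : ℝ) ^ (n + L) ≤
        ((j + 1 : ℕ) : ℝ) ^ n := by
      refine le_trans ?_ (pow_exp (n := n) (by omega : 1 ≤ j) hs2 hjs)
      rw [pow_add (j : ℝ) n L]
      calc 2 * (2 * (s * B)) * ((j + 1 : ℕ) : ℝ) ^ (A + 2) * ((j : ℝ) ^ n * (j : ℝ) ^ L) =
            (2 * (2 * (s * B)) * ((j + 1 : ℕ) : ℝ) ^ (A + 2) * (j : ℝ) ^ L) * (j : ℝ) ^ n := by
            ring
        _ ≤ Real.exp ((n : ℝ) / (2 * s)) * (j : ℝ) ^ n := by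
            refine mul_le_mul_of_nonneg_right (ha.trans ?_) (by positivity)
            rw [Real.exp_le_exp]
            exact hQ1
    have h2 : s * B * (2 / ((j + 1 : ℕ) : ℝ) ^ q) ≤ 1 / (2 * (j : ℝ) ^ (n + L)) := by
      rw [mul_div_assoc', div_le_div_iff₀ (by positivity) (by positivity), one_mul]
      rw [hqn ((j + 1 : ℕ) : ℝ)] at h1
      have h3 : (0 : ℝ) < ((j + 1 : ℕ) : ℝ) ^ (A + 2) := by positivity
      refine le_of_mul_le_mul_right ?_ h3
      calc s * B * 2 * (2 * (j : ℝ) ^ (n + L)) * ((j + 1 : ℕ) : ℝ) ^ (A + 2) =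
            2 * (2 * (s * B)) * ((j + 1 : ℕ) : ℝ) ^ (A + 2) * (j : ℝ) ^ (n + L) := by ring
        _ ≤ _ := h1
    have h4 : 1 / (j : ℝ) ^ (n + L) = 1 / (2 * (j : ℝ) ^ (n + L)) +
        1 / (2 * (j : ℝ) ^ (n + L)) := by
      have : (j : ℝ) ^ (n + L) ≠ 0 := by positivity
      field_simp
      norm_num
    linarith
  refine ⟨c, B, hB1, hcB, ?_, ?_, ?_⟩
  · -- `s B ≤ (1 + ε) ^ n`
    have h1 : s * B ≤ Real.exp Q := by
      refine le_trans ?_ ha
      have h2 : (1 : ℝ) ≤ ((j + 1 : ℕ) : ℝ) ^ (A + 2) :=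
        one_le_pow₀ (by exact_mod_cast (by omega : 1 ≤ j + 1))
      have h3 : (0 : ℝ) ≤ s * B := by positivity
      calc s * B ≤ 2 * (2 * (s * B)) := by linarith
        _ ≤ 2 * (2 * (s * B)) * ((j + 1 : ℕ) : ℝ) ^ (A + 2) :=
            le_mul_of_one_le_right (by positivity) h2
        _ ≤ _ := le_mul_of_one_le_right (by positivity) hL1
    refine h1.trans ?_
    have h2 : Real.exp (ε / 4) ≤ 1 + ε := by
      have h3 := Real.abs_exp_sub_one_le (x := ε / 4) (by rw [abs_of_pos (by positivity)]; linarith)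
      rw [abs_of_pos (show (0 : ℝ) < ε / 4 by positivity)] at h3
      have := le_abs_self (Real.exp (ε / 4) - 1)
      linarith
    calc Real.exp Q ≤ Real.exp (ε * n / 4) := Real.exp_le_exp.2 hQ4
      _ = Real.exp (ε / 4) ^ n := by
          rw [← Real.exp_nat_mul]
          congr 1
          ring
      _ ≤ (1 + ε) ^ n := pow_le_pow_left₀ (Real.exp_pos _).le h2 n
  · -- the lower bound
    refine lt_of_lt_of_le ?_ hlow2
    have hsL2 : s ≤ 2 * L := by
      have h1 : S ⊆ Finset.Icc n (n + L) := fun m hm => Finset.mem_Icc.2 (hS m hm)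
      have h2 := Finset.card_le_card h1
      rw [Nat.card_Icc] at h2
      omega
    have hj2s : (j : ℝ) ^ 2 ≤ 8 * (n : ℝ) ^ (1 - ε) := by
      have h1 : (j : ℝ) ≤ 2 * s := by exact_mod_cast (by omega : j ≤ 2 * s)
      have h2 : (s : ℝ) ≤ 2 * L := by exact_mod_cast hsL2
      calc (j : ℝ) ^ 2 ≤ (2 * s) ^ 2 := pow_le_pow_left₀ hj0.le h1 2
        _ = 4 * (s * s) := by ring
        _ ≤ 4 * (s * (2 * L)) := by gcongr
        _ = 8 * (s * L) := by ring
        _ ≤ _ := by linarith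
    have hjlog : Real.log j ≤ 3 / 2 + l / 2 := by
      have h1 := Real.log_le_log (by positivity) hj2s
      rw [Real.log_pow, Real.log_mul (by norm_num) (by positivity), Real.log_rpow hnR] at h1
      have h2 : Real.log 8 ≤ 3 := by
        rw [show (8 : ℝ) = 2 ^ 3 by norm_num, Real.log_pow]
        have := Real.log_two_lt_d9
        push_cast
        linarith
      push_cast at h1
      nlinarith
    have hjn : (j : ℝ) ^ n ≤ Real.exp (n * (3 / 2 + l / 2)) := by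
      rw [← Real.exp_log hj0, ← Real.exp_nat_mul, Real.exp_le_exp]
      exact mul_le_mul_of_nonneg_left hjlog hnR.le
    have hnn : (n : ℝ) ^ n = Real.exp (n * l) := by
      rw [← hexpl, ← Real.exp_nat_mul]
      rw [hexpl]
    have h5 : 2 * (2 * (s * B)) * (j : ℝ) ^ L ≤ Real.exp Q := by
      refine le_trans ?_ ha
      have h2 : (1 : ℝ) ≤ ((j + 1 : ℕ) : ℝ) ^ (A + 2) :=
        one_le_pow₀ (by exact_mod_cast (by omega : 1 ≤ j + 1))
      refine mul_le_mul_of_nonneg_right (le_mul_of_one_le_right (by positivity) h2) (by positivity)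
    rw [mul_one_div, div_lt_div_iff₀ (by positivity) (by positivity), one_mul, hnn, pow_add]
    calc 4 * (s * B) * (2 * ((j : ℝ) ^ n * (j : ℝ) ^ L)) =
          2 * (2 * (2 * (s * B)) * (j : ℝ) ^ L) * (j : ℝ) ^ n := by ring
      _ ≤ 2 * Real.exp Q * Real.exp (n * (3 / 2 + l / 2)) := by gcongr
      _ ≤ Real.exp 1 * Real.exp Q * Real.exp (n * (3 / 2 + l / 2)) := by gcongr
      _ = Real.exp (1 + Q + n * (3 / 2 + l / 2)) := by rw [← Real.exp_add, ← Real.exp_add]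
      _ < Real.exp (n * l) := by
          rw [Real.exp_lt_exp]
          have h6 : Q ≤ n / 4 := by nlinarith
          nlinarith
  · -- the upper bound
    have hjlow : (1 - η) * (s : ℝ) ≤ j := by
      have h1 : ((r + 2 : ℕ) : ℝ) ≤ j := by exact_mod_cast hjr
      push_cast at h1
      linarith
    have h1 : |∑ m ∈ S, (c m : ℝ) * (FF g m - 1)| * (j : ℝ) ^ n ≤ Real.exp (ε * n / 4) := by
      calc |∑ m ∈ S, (c m : ℝ) * (FF g m - 1)| * (j : ℝ) ^ n ≤
            (s * B * (2 / (j : ℝ) ^ q)) * (j : ℝ) ^ n :=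
            mul_le_mul_of_nonneg_right hupp (by positivity)
        _ = 2 * (s * B) * (j : ℝ) ^ (A + 2) := by
            rw [hqn]
            have : (j : ℝ) ^ q ≠ 0 := by positivity
            field_simp
        _ ≤ Real.exp Q := by
            refine le_trans ?_ ha
            have h2 : (j : ℝ) ^ (A + 2) ≤ ((j + 1 : ℕ) : ℝ) ^ (A + 2) :=
              pow_le_pow_left₀ hj0.le (by exact_mod_cast Nat.le_succ j) _
            have h3 : (0 : ℝ) ≤ s * B := by positivity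
            calc 2 * (s * B) * (j : ℝ) ^ (A + 2) ≤
                  (2 * (2 * (s * B))) * ((j + 1 : ℕ) : ℝ) ^ (A + 2) := by
                  refine mul_le_mul (by linarith) h2 (by positivity) (by positivity)
              _ ≤ _ := le_mul_of_one_le_right (by positivity) hL1
        _ ≤ _ := Real.exp_le_exp.2 hQ4
    have h2 : Real.exp (ε / 4) * ((1 - ε) * s) ≤ (1 - η) * s := by
      have h3 : Real.exp (ε / 4) * (1 - ε) ≤ 1 - η := by
        have h4 := Real.add_one_le_exp (-(ε / 4))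
        rw [Real.exp_neg] at h4
        have h5 : 0 < Real.exp (ε / 4) := Real.exp_pos _
        have h6 : (1 - ε) ≤ (Real.exp (ε / 4))⁻¹ * (1 - η) := by
          calc (1 - ε) ≤ (1 - ε / 4) * (1 - η) := by rw [hη]; nlinarith
            _ ≤ (Real.exp (ε / 4))⁻¹ * (1 - η) :=
                mul_le_mul_of_nonneg_right (by linarith) (by linarith)
        calc Real.exp (ε / 4) * (1 - ε) ≤
              Real.exp (ε / 4) * ((Real.exp (ε / 4))⁻¹ * (1 - η)) :=
              mul_le_mul_of_nonneg_left h6 h5.le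
          _ = 1 - η := by field_simp
      nlinarith
    have h3 : (0 : ℝ) ≤ (1 - ε) * s := mul_nonneg (by linarith) (by linarith)
    have h4 : Real.exp (ε * n / 4) * ((1 - ε) * s) ^ n ≤ (j : ℝ) ^ n := by
      calc Real.exp (ε * n / 4) * ((1 - ε) * s) ^ n =
            (Real.exp (ε / 4) * ((1 - ε) * s)) ^ n := by
            rw [mul_pow (Real.exp (ε / 4)), ← Real.exp_nat_mul]
            congr 2
            ring
        _ ≤ (j : ℝ) ^ n := pow_le_pow_left₀ (by positivity) (h2.trans hjlow) n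
    have hjn0 : (0 : ℝ) < (j : ℝ) ^ n := by positivity
    refine le_of_mul_le_mul_right ?_ hjn0
    calc |∑ m ∈ S, (c m : ℝ) * (FF g m - 1)| * ((1 - ε) * s) ^ n * (j : ℝ) ^ n =
          |∑ m ∈ S, (c m : ℝ) * (FF g m - 1)| * (j : ℝ) ^ n * ((1 - ε) * s) ^ n := by ring
      _ ≤ Real.exp (ε * n / 4) * ((1 - ε) * s) ^ n :=
          mul_le_mul_of_nonneg_right h1 (by positivity)
      _ ≤ (j : ℝ) ^ n := h4
      _ = 1 * (j : ℝ) ^ n := (one_mul _).symm

end Pool.Agent.W5h23.CD
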