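import Mathlib

/-!
# Linear forms with small integer coefficients in values of a Dirichlet series at many consecutive
integers
-/

set_option autoImplicit false

namespace Pool.Agent.W5h23.CD

open Polynomial Finset

/-- the value at `m` of the Dirichlet series with the coefficients `g` -/
noncomputable def FF (g : ℕ → ℝ) (m : ℕ) : ℝ := ∑' k : ℕ, g (k + 1) / ((k + 1 : ℕ) : ℝ) ^ m

theorem signVariations_lt (p : ℝ[X]) (hp : p ≠ 0) : p.signVariations < p.support.card := by
  induction hn : p.support.card using Nat.strong_induction_on generalizing p with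
  | _ n ih =>
    have hpos : 0 < p.support.card := by
      rw [Finset.card_pos, Polynomial.nonempty_support_iff]
      exact hp
    by_cases he : p.eraseLead = 0
    · have h1 := signVariations_le_eraseLead_succ (P := p)
      have h2 : p = monomial p.natDegree p.leadingCoeff := by
        have := p.eraseLead_add_monomial_natDegree_leadingCoeff
        rw [he, zero_add] at this
        exact this.symm
      rw [h2, signVariations_monomial]
      omega
    · have hc : p.eraseLead.support.card = n - 1 := by rw [card_support_eraseLead, hn]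
      have h1 := signVariations_le_eraseLead_succ (P := p)
      have h2 := ih (n - 1) (by omega) p.eraseLead he (by rw [hc])
      omega

theorem card_lt_support {p : ℝ[X]} (hp : p ≠ 0) (s : Finset ℝ)
    (hs : ∀ x ∈ s, 0 < x ∧ p.eval x = 0) : s.card < p.support.card := by
  classical
  refine lt_of_le_of_lt ?_ (signVariations_lt p hp)
  refine le_trans ?_ (roots_countP_pos_le_signVariations p)
  rw [Multiset.countP_eq_card_filter]
  have hsub : s.val ≤ p.roots.filter (0 < ·) := by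
    rw [Multiset.le_iff_subset s.nodup]
    intro x hx
    rw [Multiset.mem_filter, mem_roots hp]
    exact ⟨(hs x hx).2, (hs x hx).1⟩
  exact Multiset.card_le_card hsub

/-- a nonzero combination of `s` powers has fewer than `s` positive integral zeros -/
theorem exists_nonzero {S : Finset ℕ} {N : ℕ} (hS : ∀ m ∈ S, m ≤ N) (c : ℕ → ℤ)
    (hc : ∃ m ∈ S, c m ≠ 0) :
    ∃ j : ℕ, 2 ≤ j ∧ j ≤ S.card + 1 ∧ ∑ m ∈ S, c m * (j : ℤ) ^ (N - m) ≠ 0 ∧
      ∀ i : ℕ, 2 ≤ i → i < j → ∑ m ∈ S, c m * (i : ℤ) ^ (N - m) = 0 := by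
  classical
  set p : ℝ[X] := ∑ m ∈ S, monomial (N - m) (c m : ℝ) with hp
  have hcoef : ∀ m ∈ S, p.coeff (N - m) = c m := by
    intro m hm
    rw [hp, finset_sum_coeff, Finset.sum_eq_single m]
    · simp
    · intro m' hm' hne
      rw [coeff_monomial, if_neg]
      intro h
      have h1 := hS m hm
      have h2 := hS m' hm'
      omega
    · exact fun h => absurd hm h
  have hp0 : p ≠ 0 := by
    obtain ⟨m, hm, hcm⟩ := hc
    intro h
    have h1 := hcoef m hm
    rw [h, coeff_zero] at h1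
    exact hcm (by exact_mod_cast h1.symm)
  have hsupp : p.support.card ≤ S.card := by
    have h1 : p.support ⊆ S.image fun m => N - m := by
      intro e he
      rw [mem_support_iff, hp, finset_sum_coeff] at he
      obtain ⟨m, hm, hne⟩ := Finset.exists_ne_zero_of_sum_ne_zero he
      rw [coeff_monomial] at hne
      rw [Finset.mem_image]
      refine ⟨m, hm, ?_⟩
      by_contra hcon
      rw [if_neg hcon] at hne
      exact hne rfl
    exact (Finset.card_le_card h1).trans Finset.card_image_le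
  have heval : ∀ i : ℕ, p.eval (i : ℝ) = ((∑ m ∈ S, c m * (i : ℤ) ^ (N - m) : ℤ) : ℝ) := by
    intro i
    rw [hp, eval_finset_sum]
    push_cast
    exact Finset.sum_congr rfl fun m _ => eval_monomial
  have hex : ∃ j : ℕ, 2 ≤ j ∧ j ≤ S.card + 1 ∧ ∑ m ∈ S, c m * (j : ℤ) ^ (N - m) ≠ 0 := by
    by_contra hcon
    push Not at hcon
    have h1 := card_lt_support hp0 ((Finset.Icc 2 (S.card + 1)).image fun i : ℕ => (i : ℝ))
      (fun x hx => by
        rw [Finset.mem_image] at hx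
        obtain ⟨i, hi, rfl⟩ := hx
        rw [Finset.mem_Icc] at hi
        refine ⟨by exact_mod_cast (by omega : 0 < i), ?_⟩
        rw [heval, hcon i hi.1 hi.2]
        simp)
    rw [Finset.card_image_of_injective _ Nat.cast_injective, Nat.card_Icc] at h1
    omega
  refine ⟨Nat.find hex, (Nat.find_spec hex).1, (Nat.find_spec hex).2.1, (Nat.find_spec hex).2.2,
    fun i hi hij => ?_⟩
  have h1 := Nat.find_min hex hij
  by_contra hcon
  exact h1 ⟨hi, by have := (Nat.find_spec hex).2.1; omega, hcon⟩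

attribute [local instance] Matrix.normedAddCommGroup in
/-- Siegel's lemma for the powers of `2, …, r + 1` -/
theorem siegel (S : Finset ℕ) (n L r : ℕ) (hS : ∀ m ∈ S, n ≤ m ∧ m ≤ n + L) (hr : 1 ≤ r)
    (hrs : r < S.card) :
    ∃ c : ℕ → ℤ, (∃ m ∈ S, c m ≠ 0) ∧
      (∀ m ∈ S, |(c m : ℝ)| ≤
        ((S.card : ℝ) ^ (L + 1)) ^ ((r : ℝ) / ((S.card : ℝ) - r))) ∧
      ∀ i : ℕ, 2 ≤ i → i ≤ r + 1 → ∑ m ∈ S, c m * (i : ℤ) ^ (n + L - m) = 0 := by
  classical
  let A : Matrix (Fin r) S ℤ := fun i m => ((i : ℕ) + 2 : ℤ) ^ (n + L - (m : ℕ))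
  have hc1 : Fintype.card (Fin r) < Fintype.card S := by
    rw [Fintype.card_fin, Fintype.card_coe]
    exact hrs
  obtain ⟨t, ht0, ht1, ht2⟩ := Int.Matrix.exists_ne_zero_int_vec_norm_le A hc1
    (by rw [Fintype.card_fin]; omega)
  have hs1 : (1 : ℝ) ≤ (S.card : ℝ) := by exact_mod_cast (by omega : 1 ≤ S.card)
  have hA : ‖A‖ ≤ (S.card : ℝ) ^ L := by
    rw [Matrix.norm_le_iff (by positivity)]
    intro i m
    obtain ⟨h1, h2⟩ := hS m m.2
    rw [Int.norm_eq_abs]
    have h3 : ((i : ℕ) : ℝ) + 2 ≤ S.card := by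
      have h4 : (i : ℕ) + 2 ≤ S.card := by have := i.2; omega
      exact_mod_cast h4
    have h5 : (0 : ℝ) ≤ ((i : ℕ) : ℝ) := Nat.cast_nonneg _
    change |(((((i : ℕ) : ℤ) + 2) ^ (n + L - (m : ℕ)) : ℤ) : ℝ)| ≤ _
    push_cast
    rw [abs_of_nonneg (by positivity)]
    calc (((i : ℕ) : ℝ) + 2) ^ (n + L - (m : ℕ)) ≤ (((i : ℕ) : ℝ) + 2) ^ L :=
          pow_le_pow_right₀ (by linarith) (by omega)
      _ ≤ (S.card : ℝ) ^ L := pow_le_pow_left₀ (by linarith) h3 L
  refine ⟨fun m => if h : m ∈ S then t ⟨m, h⟩ else 0, ?_, ?_, ?_⟩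
  · obtain ⟨m, hm⟩ := Function.ne_iff.1 ht0
    exact ⟨m, m.2, by simpa using hm⟩
  · intro m hm
    simp only [dif_pos hm]
    have h1 : ‖t ⟨m, hm⟩‖ ≤ ‖t‖ := norm_le_pi_norm t ⟨m, hm⟩
    rw [Int.norm_eq_abs] at h1
    refine h1.trans (ht2.trans ?_)
    rw [Fintype.card_fin, Fintype.card_coe]
    have hd : (0 : ℝ) < (S.card : ℝ) - r := by
      have : (r : ℝ) < S.card := by exact_mod_cast hrs
      linarith
    refine Real.rpow_le_rpow (by positivity) ?_ (by positivity)
    rw [pow_succ, mul_comm]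
    refine mul_le_mul_of_nonneg_right (max_le (one_le_pow₀ hs1) hA) (by linarith)
  · intro i hi1 hi2
    have h1 := congrFun ht1 ⟨i - 2, by omega⟩
    rw [Matrix.mulVec, dotProduct] at h1
    rw [← Finset.sum_coe_sort S]
    rw [Pi.zero_apply] at h1
    refine Eq.trans (Finset.sum_congr rfl fun m _ => ?_) h1
    simp only [dif_pos m.2]
    change t m * _ = ((((i - 2 : ℕ) : ℤ)) + 2) ^ (n + L - (m : ℕ)) * t m
    rw [mul_comm]
    congr 2
    push_cast [Nat.cast_sub hi1]
    ring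

theorem zeta_tail (j q : ℕ) (hj : 1 ≤ j) :
    Summable (fun i : ℕ => 1 / ((i + j : ℕ) : ℝ) ^ (q + 2)) ∧
      ∑' i : ℕ, 1 / ((i + j : ℕ) : ℝ) ^ (q + 2) ≤ 2 / (j : ℝ) ^ q := by
  have hj0 : (0 : ℝ) < j := by exact_mod_cast hj
  have h2 : HasSum (fun i : ℕ => 1 / ((i : ℝ)) ^ 2) (Real.pi ^ 2 / 6) := hasSum_zeta_two
  have h3 : Summable (fun i : ℕ => 1 / (((i + 1 : ℕ) : ℝ)) ^ 2) :=
    (summable_nat_add_iff 1).2 h2.summable
  have h4 : ∑' i : ℕ, 1 / (((i + 1 : ℕ) : ℝ)) ^ 2 ≤ 2 := by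
    have h5 := h2.summable.sum_add_tsum_nat_add 1
    rw [h2.tsum_eq] at h5
    simp only [Finset.range_one, Finset.sum_singleton, Nat.cast_zero] at h5
    rw [show (1 : ℝ) / 0 ^ 2 = 0 by norm_num, zero_add] at h5
    rw [h5]
    have := Real.pi_lt_d2
    have := Real.pi_pos
    nlinarith
  have hle : ∀ i : ℕ, 1 / ((i + j : ℕ) : ℝ) ^ (q + 2) ≤
      (1 / (j : ℝ) ^ q) * (1 / (((i + 1 : ℕ) : ℝ)) ^ 2) := by
    intro i
    rw [div_mul_div_comm, one_mul]
    refine one_div_le_one_div_of_le (by positivity) ?_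
    rw [pow_add]
    refine mul_le_mul (pow_le_pow_left₀ hj0.le ?_ q) (pow_le_pow_left₀ (by positivity) ?_ 2)
      (by positivity) (by positivity)
    · exact_mod_cast Nat.le_add_left j i
    · exact_mod_cast Nat.add_le_add_left hj i
  have hs : Summable (fun i : ℕ => 1 / ((i + j : ℕ) : ℝ) ^ (q + 2)) :=
    Summable.of_nonneg_of_le (fun i => by positivity) hle (h3.mul_left _)
  refine ⟨hs, ?_⟩
  calc ∑' i : ℕ, 1 / ((i + j : ℕ) : ℝ) ^ (q + 2) ≤
        ∑' i : ℕ, (1 / (j : ℝ) ^ q) * (1 / (((i + 1 : ℕ) : ℝ)) ^ 2) :=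
        hs.tsum_le_tsum hle (h3.mul_left _)
    _ = (1 / (j : ℝ) ^ q) * ∑' i : ℕ, (1 / (((i + 1 : ℕ) : ℝ)) ^ 2) := tsum_mul_left
    _ ≤ (1 / (j : ℝ) ^ q) * 2 := mul_le_mul_of_nonneg_left h4 (by positivity)
    _ = 2 / (j : ℝ) ^ q := by ring

end Pool.Agent.W5h23.CD
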