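import Pool.Agent.W5h23.CD.Core

/-!
# The linear forms
-/

set_option autoImplicit false

namespace Pool.Agent.W5h23.CD

open Finset

/-- the coefficients: `g 1 = 1` and `1 ≤ |g k| ≤ k ^ A` -/
structure Good (g : ℕ → ℝ) (A : ℕ) : Prop where
  one : g 1 = 1
  ge : ∀ k, 1 ≤ k → 1 ≤ |g k|
  le : ∀ k : ℕ, 1 ≤ k → |g k| ≤ (k : ℝ) ^ A

section

variable {g : ℕ → ℝ} {A : ℕ} (hg : Good g A)
include hg

theorem term_le (q m i : ℕ) (hm : q + 2 + A ≤ m) :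
    |g (i + 1) / ((i + 1 : ℕ) : ℝ) ^ m| ≤ 1 / ((i + 1 : ℕ) : ℝ) ^ (q + 2) := by
  have h0 : (1 : ℝ) ≤ ((i + 1 : ℕ) : ℝ) := by exact_mod_cast Nat.le_add_left 1 i
  have h00 : (0 : ℝ) < ((i + 1 : ℕ) : ℝ) := by linarith
  have h1 := hg.le (i + 1) (by omega)
  rw [abs_div, abs_of_pos (pow_pos h00 m), div_le_div_iff₀ (pow_pos h00 m) (pow_pos h00 _), one_mul]
  calc |g (i + 1)| * ((i + 1 : ℕ) : ℝ) ^ (q + 2) ≤
        ((i + 1 : ℕ) : ℝ) ^ A * ((i + 1 : ℕ) : ℝ) ^ (q + 2) :=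
        mul_le_mul_of_nonneg_right h1 (by positivity)
    _ = ((i + 1 : ℕ) : ℝ) ^ (A + (q + 2)) := (pow_add _ _ _).symm
    _ ≤ ((i + 1 : ℕ) : ℝ) ^ m := pow_le_pow_right₀ h0 (by omega)

theorem ff_summable (q m : ℕ) (hm : q + 2 + A ≤ m) :
    Summable (fun k : ℕ => g (k + 1) / ((k + 1 : ℕ) : ℝ) ^ m) := by
  refine Summable.of_norm_bounded ((zeta_tail 1 q le_rfl).1) fun i => ?_
  rw [Real.norm_eq_abs]
  exact term_le hg q m i hm

/-- the form, as a series -/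
theorem form_eq (S : Finset ℕ) (q : ℕ) (hS : ∀ m ∈ S, q + 2 + A ≤ m) (c : ℕ → ℤ) (j : ℕ)
    (hj : 2 ≤ j) (h0 : ∀ i : ℕ, 2 ≤ i → i < j → ∑ m ∈ S, (c m : ℝ) / ((i : ℕ) : ℝ) ^ m = 0) :
    (∑ m ∈ S, (c m : ℝ) * (FF g m - 1) =
      g j * ∑ m ∈ S, (c m : ℝ) / ((j : ℕ) : ℝ) ^ m +
        ∑' i : ℕ, g (i + (j + 1)) * ∑ m ∈ S, (c m : ℝ) / ((i + (j + 1) : ℕ) : ℝ) ^ m) ∧
    (∑ m ∈ S, (c m : ℝ) * (FF g m - 1) =
        ∑' i : ℕ, g (i + j) * ∑ m ∈ S, (c m : ℝ) / ((i + j : ℕ) : ℝ) ^ m) := by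
  set u : ℕ → ℝ := fun i => g (i + 1) * ∑ m ∈ S, (c m : ℝ) / ((i + 1 : ℕ) : ℝ) ^ m with hu
  have hsum : ∀ m ∈ S, Summable (fun i : ℕ => (c m : ℝ) * (g (i + 1) / ((i + 1 : ℕ) : ℝ) ^ m)) :=
    fun m hm => (ff_summable hg q m (hS m hm)).mul_left _
  have hue : u = fun i => ∑ m ∈ S, (c m : ℝ) * (g (i + 1) / ((i + 1 : ℕ) : ℝ) ^ m) := by
    funext i
    rw [hu]
    simp only
    rw [Finset.mul_sum]
    refine Finset.sum_congr rfl fun m _ => ?_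
    ring
  have hus : Summable u := by
    rw [hue]
    exact summable_sum hsum
  have hut : ∑' i, u i = ∑ m ∈ S, (c m : ℝ) * FF g m := by
    rw [hue, Summable.tsum_finsetSum hsum]
    refine Finset.sum_congr rfl fun m _ => ?_
    rw [tsum_mul_left]
    rfl
  have hu0 : u 0 = ∑ m ∈ S, (c m : ℝ) := by
    rw [hu]
    simp only [zero_add]
    rw [hg.one, one_mul]
    refine Finset.sum_congr rfl fun m _ => ?_
    simp
  have hform : ∑ m ∈ S, (c m : ℝ) * (FF g m - 1) = ∑' i, u i - u 0 := by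
    rw [hut, hu0, ← Finset.sum_sub_distrib]
    refine Finset.sum_congr rfl fun m _ => ?_
    ring
  have hz : ∀ k : ℕ, k + 1 < j → ∑ i ∈ Finset.range (k + 1), u i = u 0 := by
    intro k hk
    rw [Finset.sum_range_succ', Finset.sum_eq_zero, zero_add]
    intro i hi
    rw [Finset.mem_range] at hi
    rw [hu]
    simp only
    rw [h0 (i + 1 + 1) (by omega) (by omega), mul_zero]
  have hz' : ∑ i ∈ Finset.range (j - 1), u i = u 0 := by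
    have h1 := hz (j - 2) (by omega)
    rwa [show j - 2 + 1 = j - 1 by omega] at h1
  constructor
  · rw [hform, ← hus.sum_add_tsum_nat_add j]
    have h1 : ∑ i ∈ Finset.range j, u i = u 0 + u (j - 1) := by
      conv_lhs => rw [show j = (j - 1) + 1 by omega]
      rw [Finset.sum_range_succ, hz']
    rw [h1]
    have h2 : u (j - 1) = g j * ∑ m ∈ S, (c m : ℝ) / ((j : ℕ) : ℝ) ^ m := by
      rw [hu]
      simp only
      rw [show j - 1 + 1 = j by omega]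
    rw [h2]
    have h3 : ∀ i, u (i + j) = g (i + (j + 1)) *
        ∑ m ∈ S, (c m : ℝ) / ((i + (j + 1) : ℕ) : ℝ) ^ m := by
      intro i
      rw [hu]
      simp only
      rw [show i + j + 1 = i + (j + 1) by ring]
    simp only [h3]
    ring
  · rw [hform, ← hus.sum_add_tsum_nat_add (j - 1), hz']
    have h3 : ∀ i, u (i + (j - 1)) = g (i + j) *
        ∑ m ∈ S, (c m : ℝ) / ((i + j : ℕ) : ℝ) ^ m := by
      intro i
      rw [hu]
      simp only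
      rw [show i + (j - 1) + 1 = i + j by omega]
    simp only [h3]
    ring

theorem tail_le (S : Finset ℕ) (q : ℕ) (hS : ∀ m ∈ S, q + 2 + A ≤ m) (c : ℕ → ℤ) (B : ℝ)
    (hB : ∀ m ∈ S, |(c m : ℝ)| ≤ B) (j : ℕ) (hj : 1 ≤ j) :
    |∑' i : ℕ, g (i + j) * ∑ m ∈ S, (c m : ℝ) / ((i + j : ℕ) : ℝ) ^ m| ≤
      S.card * B * (2 / (j : ℝ) ^ q) := by
  obtain ⟨h1, h2⟩ := zeta_tail j q hj
  rcases S.eq_empty_or_nonempty with rfl | ⟨m0, hm0⟩
  · simp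
  have hB0 : 0 ≤ B := (abs_nonneg _).trans (hB m0 hm0)
  have hle : ∀ i : ℕ, |g (i + j) * ∑ m ∈ S, (c m : ℝ) / ((i + j : ℕ) : ℝ) ^ m| ≤
      (S.card * B) * (1 / ((i + j : ℕ) : ℝ) ^ (q + 2)) := by
    intro i
    obtain ⟨l, hl⟩ : ∃ l, i + j = l + 1 := ⟨i + j - 1, by omega⟩
    rw [hl, Finset.mul_sum]
    refine (Finset.abs_sum_le_sum_abs _ _).trans ?_
    rw [mul_assoc, ← nsmul_eq_mul]
    refine Finset.sum_le_card_nsmul _ _ _ fun m hm => ?_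
    have h3 := term_le hg q m l (hS m hm)
    calc |g (l + 1) * ((c m : ℝ) / ((l + 1 : ℕ) : ℝ) ^ m)| =
          |(c m : ℝ)| * |g (l + 1) / ((l + 1 : ℕ) : ℝ) ^ m| := by
          rw [← abs_mul]
          congr 1
          ring
      _ ≤ B * (1 / ((l + 1 : ℕ) : ℝ) ^ (q + 2)) :=
          mul_le_mul (hB m hm) h3 (abs_nonneg _) hB0
  have h4 : Summable (fun i : ℕ => (S.card * B) * (1 / ((i + j : ℕ) : ℝ) ^ (q + 2))) :=
    h1.mul_left _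
  have h5 := tsum_of_norm_bounded h4.hasSum (fun i => by rw [Real.norm_eq_abs]; exact hle i)
  rw [Real.norm_eq_abs, tsum_mul_left] at h5
  exact h5.trans (mul_le_mul_of_nonneg_left h2 (by positivity))

/-- **The linear forms.** -/
theorem form (S : Finset ℕ) (n L r q : ℕ) (hn : n = q + 2 + A)
    (hS : ∀ m ∈ S, n ≤ m ∧ m ≤ n + L) (hr : 1 ≤ r) (hrs : r < S.card) :
    ∃ (c : ℕ → ℤ) (j : ℕ), r + 2 ≤ j ∧ j ≤ S.card + 1 ∧
      (∀ m ∈ S, |(c m : ℝ)| ≤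
        ((S.card : ℝ) ^ (L + 1)) ^ ((r : ℝ) / ((S.card : ℝ) - r))) ∧
      1 / (j : ℝ) ^ (n + L) - S.card * ((S.card : ℝ) ^ (L + 1)) ^ ((r : ℝ) / ((S.card : ℝ) - r)) *
        (2 / ((j + 1 : ℕ) : ℝ) ^ q) ≤ |∑ m ∈ S, (c m : ℝ) * (FF g m - 1)| ∧
      |∑ m ∈ S, (c m : ℝ) * (FF g m - 1)| ≤
        S.card * ((S.card : ℝ) ^ (L + 1)) ^ ((r : ℝ) / ((S.card : ℝ) - r)) *
          (2 / (j : ℝ) ^ q) := by
  obtain ⟨c, hc0, hcB, hcz⟩ := siegel S n L r hS hr hrs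
  obtain ⟨j, hj2, hjs, hjne, hjz⟩ := exists_nonzero (N := n + L) (fun m hm => (hS m hm).2) c hc0
  have hjr : r + 2 ≤ j := by
    by_contra hcon
    exact hjne (hcz j hj2 (by omega))
  have hS' : ∀ m ∈ S, q + 2 + A ≤ m := fun m hm => hn ▸ (hS m hm).1
  have hval : ∀ i : ℕ, 1 ≤ i → ∑ m ∈ S, (c m : ℝ) / ((i : ℕ) : ℝ) ^ m =
      ((∑ m ∈ S, c m * (i : ℤ) ^ (n + L - m) : ℤ) : ℝ) / (i : ℝ) ^ (n + L) := by
    intro i hi
    have hi0 : (0 : ℝ) < i := by exact_mod_cast hi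
    rw [eq_div_iff (pow_pos hi0 _).ne', Finset.sum_mul]
    push_cast
    refine Finset.sum_congr rfl fun m hm => ?_
    have h1 : (i : ℝ) ^ (n + L) = (i : ℝ) ^ (n + L - m) * (i : ℝ) ^ m := by
      rw [← pow_add]
      congr 1
      have := (hS m hm).2
      omega
    rw [h1]
    have : (i : ℝ) ^ m ≠ 0 := (pow_pos hi0 _).ne'
    field_simp
  obtain ⟨he1, he2⟩ := form_eq hg S q hS' c j hj2 (fun i hi hij => by
    rw [hval i (by omega), hjz i hi hij]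
    simp)
  refine ⟨c, j, hjr, hjs, hcB, ?_, ?_⟩
  · rw [he1]
    have h1 := tail_le hg S q hS' c _ hcB (j + 1) (by omega)
    have h2 : 1 / (j : ℝ) ^ (n + L) ≤ |g j * ∑ m ∈ S, (c m : ℝ) / ((j : ℕ) : ℝ) ^ m| := by
      have hj0 : (0 : ℝ) < j := by exact_mod_cast (by omega : 0 < j)
      rw [hval j (by omega), abs_mul, abs_div, abs_of_pos (pow_pos hj0 (n + L))]
      have h3 : (1 : ℝ) ≤ |((∑ m ∈ S, c m * (j : ℤ) ^ (n + L - m) : ℤ) : ℝ)| := by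
        have h4 := Int.one_le_abs hjne
        exact_mod_cast h4
      have h5 := hg.ge j (by omega)
      calc 1 / (j : ℝ) ^ (n + L) ≤
            |((∑ m ∈ S, c m * (j : ℤ) ^ (n + L - m) : ℤ) : ℝ)| / (j : ℝ) ^ (n + L) := by
            gcongr
        _ ≤ |g j| * (|((∑ m ∈ S, c m * (j : ℤ) ^ (n + L - m) : ℤ) : ℝ)| / (j : ℝ) ^ (n + L)) :=
            le_mul_of_one_le_left (by positivity) h5
    have h3 := abs_sub_abs_le_abs_add
      (g j * ∑ m ∈ S, (c m : ℝ) / ((j : ℕ) : ℝ) ^ m)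
      (∑' i : ℕ, g (i + (j + 1)) * ∑ m ∈ S, (c m : ℝ) / ((i + (j + 1) : ℕ) : ℝ) ^ m)
    linarith
  · rw [he2]
    exact tail_le hg S q hS' c _ hcB j (by omega)

end

end Pool.Agent.W5h23.CD
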