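import Pool.Agent.W5h23.CD.Asym

/-!
# Common denominators of values of a Dirichlet series at many consecutive integers
-/

set_option autoImplicit false

namespace Pool.Agent.W5h23.CD

open Finset Filter NumberField

theorem extract (ε ε' : ℝ) (hε : 0 < ε) (hε1 : ε ≤ 1) (hε' : ε' ≤ ε / 2) :
    ∃ n0 : ℕ, ∀ n : ℕ, n0 ≤ n → ∀ (L : ℕ) (y : ℝ), 1 ≤ L → 1 ≤ y →
      y * L ≤ (n : ℝ) ^ (1 - ε) → ∀ T : Finset ℕ, (1 + ε) * y < T.card →
      ∃ S ⊆ T, 2 ≤ S.card ∧ (1 + ε) * y < S.card ∧ (S.card : ℝ) * L ≤ (n : ℝ) ^ (1 - ε') := by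
  have h1 : ∀ᶠ x : ℝ in atTop, 4 ≤ x ^ (ε / 2) :=
    (tendsto_rpow_atTop (by positivity : 0 < ε / 2)).eventually_ge_atTop 4
  obtain ⟨x0, hx0⟩ := eventually_atTop.1 (h1.and (eventually_ge_atTop 1))
  refine ⟨⌈x0⌉₊, fun n hn L y hL hy hyL T hT => ?_⟩
  obtain ⟨h2, h3⟩ := hx0 n (Nat.ceil_le.1 hn)
  have hx : 1 ≤ (1 + ε) * y := by nlinarith
  set s : ℕ := ⌊(1 + ε) * y⌋₊ + 1 with hs
  have hs1 : (1 + ε) * y < s := by
    rw [hs]
    push_cast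
    exact Nat.lt_floor_add_one _
  have hs2 : (s : ℝ) ≤ (1 + ε) * y + 1 := by
    rw [hs]
    push_cast
    have := Nat.floor_le (show 0 ≤ (1 + ε) * y by linarith)
    linarith
  have hs3 : s ≤ T.card := by
    have h4 : ⌊(1 + ε) * y⌋₊ < T.card := (Nat.floor_lt (by linarith)).2 hT
    omega
  obtain ⟨S, hST, hSc⟩ := Finset.exists_subset_card_eq hs3
  refine ⟨S, hST, ?_, by rw [hSc]; exact hs1, ?_⟩
  · rw [hSc, hs]
    have : 1 ≤ ⌊(1 + ε) * y⌋₊ := (Nat.one_le_floor_iff _).2 hx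
    omega
  · rw [hSc]
    have h5 : (s : ℝ) ≤ 4 * y := by nlinarith
    have hn0 : (0 : ℝ) < n := by linarith
    calc (s : ℝ) * L ≤ 4 * y * L := mul_le_mul_of_nonneg_right h5 (Nat.cast_nonneg L)
      _ = 4 * (y * L) := by ring
      _ ≤ (n : ℝ) ^ (ε / 2) * (n : ℝ) ^ (1 - ε) :=
          mul_le_mul h2 hyL (by positivity) (by positivity)
      _ = (n : ℝ) ^ (ε / 2 + (1 - ε)) := (Real.rpow_add hn0 _ _).symm
      _ ≤ (n : ℝ) ^ (1 - ε') := Real.rpow_le_rpow_of_exponent_le h3 (by linarith)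

theorem ev_pow (δ : ℝ) (hδ : 0 < δ) (X : ℝ) : ∃ n0 : ℕ, ∀ n : ℕ, n0 ≤ n → X < (1 + δ) ^ n := by
  have h := (tendsto_pow_atTop_atTop_of_one_lt (by linarith : 1 < 1 + δ)).eventually_gt_atTop X
  exact eventually_atTop.1 h

/-- the number of the `m` for which `D F(m)` is very close to an integer -/
theorem near_int {g : ℕ → ℝ} {A : ℕ} (hg : Good g A) (ε : ℝ) (hε : 0 < ε) (hε1 : ε ≤ 1) :
    ∃ n0 : ℕ, ∀ n : ℕ, n0 ≤ n → ∀ L D : ℕ, 1 ≤ L → 1 ≤ D →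
      (D : ℝ) ^ (1 / (n : ℝ)) * L ≤ (n : ℝ) ^ (1 - ε) → ∀ T : Finset ℕ,
      (∀ m ∈ T, n ≤ m ∧ m ≤ n + L ∧ ∃ z : ℤ, |D * FF g m - z| ≤ 1 / (n : ℝ) ^ n) →
      (T.card : ℝ) ≤ (1 + ε) * (D : ℝ) ^ (1 / (n : ℝ)) := by
  set ε' : ℝ := ε / 4 with hε'
  have hε'0 : 0 < ε' := by positivity
  obtain ⟨n1, h1⟩ := extract ε ε' hε hε1 (by rw [hε']; linarith)
  obtain ⟨n2, h2⟩ := asymp hg ε' hε'0 (by rw [hε']; linarith)
  obtain ⟨n3, h3⟩ := ev_pow (ε / 2) (by positivity) 2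
  refine ⟨n1 + n2 + n3 + 1, fun n hn L D hL hD hDL T hT => ?_⟩
  have hnR : (0 : ℝ) < n := by exact_mod_cast (by omega : 0 < n)
  have hDR : (1 : ℝ) ≤ D := by exact_mod_cast hD
  set y : ℝ := (D : ℝ) ^ (1 / (n : ℝ)) with hy
  have hy1 : 1 ≤ y := Real.one_le_rpow hDR (by positivity)
  have hyn : y ^ n = D := by
    rw [hy, ← Real.rpow_natCast, ← Real.rpow_mul (by linarith), one_div,
      inv_mul_cancel₀ hnR.ne', Real.rpow_one]
  by_contra hcon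
  push Not at hcon
  obtain ⟨S, hST, hS2, hSy, hSL⟩ := h1 n (by omega) L y hL hy1 hDL T hcon
  obtain ⟨c, B, hB1, hcB, hsB, hlow, hupp⟩ := h2 n (by omega) L hL S
    (fun m hm => ⟨(hT m (hST hm)).1, (hT m (hST hm)).2.1⟩) hS2 hSL
  set Λ : ℝ := ∑ m ∈ S, (c m : ℝ) * (FF g m - 1) with hΛ
  set s : ℝ := (S.card : ℝ) with hs
  have hs2 : (2 : ℝ) ≤ s := by
    rw [hs]
    exact_mod_cast hS2
  choose! z hz using fun m (hm : m ∈ T) => (hT m hm).2.2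
  -- the integer
  set X : ℤ := ∑ m ∈ S, c m * (z m - D) with hX
  have hXe : |(X : ℝ) - D * Λ| ≤ s * B * (1 / (n : ℝ) ^ n) := by
    have e1 : (X : ℝ) - D * Λ = ∑ m ∈ S, (c m : ℝ) * (z m - D * FF g m) := by
      rw [hX, hΛ]
      push_cast
      rw [Finset.mul_sum, ← Finset.sum_sub_distrib]
      refine Finset.sum_congr rfl fun m _ => ?_
      ring
    rw [e1]
    refine (Finset.abs_sum_le_sum_abs _ _).trans ?_
    rw [mul_assoc, hs, ← nsmul_eq_mul]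
    refine Finset.sum_le_card_nsmul _ _ _ fun m hm => ?_
    rw [abs_mul, abs_sub_comm]
    exact mul_le_mul (hcB m hm) (hz m (hST hm)) (abs_nonneg _) (by linarith)
  have hΛ0 : 0 < |Λ| := lt_of_le_of_lt (by positivity) hlow
  have hDΛ : |(D : ℝ) * Λ| = D * |Λ| := by rw [abs_mul, abs_of_pos (by linarith)]
  have h4 : s * B * (1 / (n : ℝ) ^ n) ≤ D * |Λ| / 4 := by
    have : |Λ| ≤ D * |Λ| := le_mul_of_one_le_left hΛ0.le hDR
    linarith
  have hXne : X ≠ 0 := by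
    intro h
    rw [h, Int.cast_zero, zero_sub, abs_neg, hDΛ] at hXe
    have : 0 < D * |Λ| := by positivity
    linarith
  have hX1 : (1 : ℝ) ≤ |(X : ℝ)| := by exact_mod_cast Int.one_le_abs hXne
  have h5 : 1 ≤ 5 / 4 * (D * |Λ|) := by
    have h6 := abs_sub_abs_le_abs_sub (X : ℝ) (D * Λ)
    rw [hDΛ] at h6
    linarith
  -- contradiction
  have h6 : (1 + ε / 2) ^ n * D ≤ ((1 - ε') * s) ^ n := by
    rw [← hyn, ← mul_pow]
    refine pow_le_pow_left₀ (by positivity) ?_ n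
    have h7 : (1 + ε / 2) ≤ (1 - ε') * (1 + ε) := by rw [hε']; nlinarith
    have h8 : 0 ≤ 1 - ε' := by rw [hε']; linarith
    calc (1 + ε / 2) * y ≤ (1 - ε') * (1 + ε) * y :=
          mul_le_mul_of_nonneg_right h7 (by linarith)
      _ = (1 - ε') * ((1 + ε) * y) := by ring
      _ ≤ (1 - ε') * s := mul_le_mul_of_nonneg_left hSy.le h8
  have h7 := h3 n (by omega)
  have h8 : |Λ| * ((1 + ε / 2) ^ n * D) ≤ 1 := (mul_le_mul_of_nonneg_left h6 hΛ0.le).trans hupp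
  have h9 : 0 < D * |Λ| := by positivity
  nlinarith

/-- the elementary inequality for the constants -/
theorem const_ineq (ε : ℝ) (hε : 0 < ε) (hε1 : ε ≤ 1) (d : ℕ) (hd : 1 ≤ d) :
    (1 + ε / 4) * (1 + ε / (8 * d)) ^ (d - 1) ≤ (1 - ε / (8 * d)) * (1 + ε) := by
  have hdR : (1 : ℝ) ≤ d := by exact_mod_cast hd
  have h1 : ε / (8 * d) ≤ ε / 8 := by
    apply div_le_div_of_nonneg_left hε.le (by norm_num)
    linarith
  have h2 : (1 + ε / (8 * d)) ^ (d - 1) ≤ Real.exp (ε / 8) := by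
    calc (1 + ε / (8 * d)) ^ (d - 1) ≤ Real.exp (ε / (8 * d)) ^ (d - 1) := by
          refine pow_le_pow_left₀ (by positivity) ?_ _
          rw [add_comm]
          exact Real.add_one_le_exp _
      _ = Real.exp (((d - 1 : ℕ) : ℝ) * (ε / (8 * d))) := (Real.exp_nat_mul _ _).symm
      _ ≤ Real.exp (ε / 8) := by
          rw [Real.exp_le_exp, Nat.cast_sub hd, Nat.cast_one]
          rw [mul_div_assoc', div_le_div_iff₀ (by positivity) (by norm_num)]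
          nlinarith
  have h3 : Real.exp (ε / 8) * (1 - ε / 8) ≤ 1 := by
    have h4 := Real.add_one_le_exp (-(ε / 8))
    rw [Real.exp_neg] at h4
    have h5 : 0 < Real.exp (ε / 8) := Real.exp_pos _
    calc Real.exp (ε / 8) * (1 - ε / 8) ≤ Real.exp (ε / 8) * (Real.exp (ε / 8))⁻¹ :=
          mul_le_mul_of_nonneg_left (by linarith) h5.le
      _ = 1 := mul_inv_cancel₀ h5.ne'
  have h6 : 0 < 1 - ε / 8 := by linarith
  calc (1 + ε / 4) * (1 + ε / (8 * d)) ^ (d - 1) ≤ (1 + ε / 4) * Real.exp (ε / 8) :=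
        mul_le_mul_of_nonneg_left h2 (by linarith)
    _ ≤ ((1 - ε / 8) * (1 + ε) * (1 - ε / 8)) * Real.exp (ε / 8) := by
        refine mul_le_mul_of_nonneg_right ?_ (Real.exp_pos _).le
        nlinarith [mul_pos hε hε]
    _ = (1 - ε / 8) * (1 + ε) * (Real.exp (ε / 8) * (1 - ε / 8)) := by ring
    _ ≤ (1 - ε / 8) * (1 + ε) * 1 := by
        refine mul_le_mul_of_nonneg_left h3 ?_
        have : 0 < 1 + ε := by linarith
        positivity
    _ ≤ (1 - ε / (8 * d)) * (1 + ε) := by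
        rw [mul_one]
        exact mul_le_mul_of_nonneg_right (by linarith) (by linarith)

/-- a nonzero algebraic integer with a small conjugate -/
theorem norm_bound {K : Type} [Field K] [NumberField K] (ψ : K →+* ℂ) (y : 𝓞 K) (hy : y ≠ 0)
    (M : ℝ) (hM : ∀ φ : K →+* ℂ, ‖φ y‖ ≤ M) :
    1 ≤ ‖ψ y‖ * M ^ (Module.finrank ℚ K - 1) := by
  classical
  have h1 := Algebra.norm_eq_prod_embeddings ℚ ℂ (y : K)
  have hM0 : 0 ≤ M := (norm_nonneg _).trans (hM ψ)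
  have h2 : (1 : ℝ) ≤ ‖algebraMap ℚ ℂ (Algebra.norm ℚ (y : K))‖ := by
    rw [← Algebra.coe_norm_int y]
    have h3 : Algebra.norm ℤ y ≠ 0 := Algebra.norm_ne_zero_iff.2 hy
    have h4 := Int.one_le_abs h3
    rw [eq_ratCast, Rat.cast_intCast, Complex.norm_intCast]
    exact_mod_cast h4
  rw [h1, norm_prod] at h2
  let ψ' : K →ₐ[ℚ] ℂ := ψ.toRatAlgHom
  have h5 : (ψ' : K → ℂ) = ψ := rfl
  rw [← Finset.mul_prod_erase Finset.univ _ (Finset.mem_univ ψ')] at h2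
  refine h2.trans ?_
  have h6 : ∏ σ ∈ Finset.univ.erase ψ', ‖σ (y : K)‖ ≤ M ^ (Module.finrank ℚ K - 1) := by
    calc ∏ σ ∈ Finset.univ.erase ψ', ‖σ (y : K)‖ ≤ ∏ _σ ∈ Finset.univ.erase ψ', M :=
          Finset.prod_le_prod (fun σ _ => norm_nonneg _) fun σ _ => hM (σ : K →+* ℂ)
      _ = M ^ (Module.finrank ℚ K - 1) := by
          rw [Finset.prod_const, Finset.card_erase_of_mem (Finset.mem_univ _), Finset.card_univ,
            AlgHom.card]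
  exact mul_le_mul_of_nonneg_left h6 (norm_nonneg _)

/-- the number of the `m` for which `δ F(m)` is an algebraic integer in `K` of bounded size -/
theorem number_field {g : ℕ → ℝ} {A : ℕ} (hg : Good g A) (ε : ℝ) (hε : 0 < ε) (hε1 : ε ≤ 1)
    (d : ℕ) (hd : 1 ≤ d) :
    ∃ n0 : ℕ, ∀ n : ℕ, n0 ≤ n → ∀ (K : Type) [Field K] [NumberField K],
      Module.finrank ℚ K = d → ∀ (ψ : K →+* ℂ) (L : ℕ) (H : ℝ) (δ : 𝓞 K), 1 ≤ L → 1 ≤ H →
      δ ≠ 0 → (∀ φ : K →+* ℂ, ‖φ δ‖ ≤ H) → H ^ ((d : ℝ) / n) * L ≤ (n : ℝ) ^ (1 - ε) →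
      ∀ T : Finset ℕ, (∀ m ∈ T, n ≤ m ∧ m ≤ n + L ∧ ∃ x : 𝓞 K,
        ψ x = ψ δ * ((FF g m : ℝ) : ℂ) ∧ ∀ φ : K →+* ℂ, ‖φ x‖ ≤ H) →
      (T.card : ℝ) ≤ (1 + ε) * H ^ ((d : ℝ) / n) := by
  have hdR : (1 : ℝ) ≤ d := by exact_mod_cast hd
  set ε' : ℝ := ε / (8 * d) with hε'
  have hε'0 : 0 < ε' := by positivity
  have hε'8 : ε' ≤ ε / 8 := by
    rw [hε']
    apply div_le_div_of_nonneg_left hε.le (by norm_num)
    linarith
  obtain ⟨n1, h1⟩ := extract ε ε' hε hε1 (by linarith)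
  obtain ⟨n2, h2⟩ := asymp hg ε' hε'0 (by linarith)
  obtain ⟨n3, h3⟩ := ev_pow (ε / 4) (by positivity) (2 ^ (d - 1))
  refine ⟨n1 + n2 + n3 + 1, fun n hn K _ _ hK ψ L H δ hL hH hδ hδH hHL T hT => ?_⟩
  have hnR : (0 : ℝ) < n := by exact_mod_cast (by omega : 0 < n)
  set y : ℝ := H ^ ((d : ℝ) / n) with hy
  have hy1 : 1 ≤ y := Real.one_le_rpow hH (by positivity)
  have hyn : y ^ n = H ^ d := by
    rw [hy, ← Real.rpow_natCast, ← Real.rpow_mul (by linarith), div_mul_cancel₀ _ hnR.ne',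
      Real.rpow_natCast]
  by_contra hcon
  push Not at hcon
  obtain ⟨S, hST, hS2, hSy, hSL⟩ := h1 n (by omega) L y hL hy1 hHL T hcon
  obtain ⟨c, B, hB1, hcB, hsB, hlow, hupp⟩ := h2 n (by omega) L hL S
    (fun m hm => ⟨(hT m (hST hm)).1, (hT m (hST hm)).2.1⟩) hS2 hSL
  set Λ : ℝ := ∑ m ∈ S, (c m : ℝ) * (FF g m - 1) with hΛ
  set s : ℝ := (S.card : ℝ) with hs
  have hs2 : (2 : ℝ) ≤ s := by
    rw [hs]
    exact_mod_cast hS2
  have hΛ0 : 0 < |Λ| := lt_of_le_of_lt (by positivity) hlow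
  choose! x hx using fun m (hm : m ∈ T) => (hT m hm).2.2
  set Y : 𝓞 K := ∑ m ∈ S, (c m : 𝓞 K) * (x m - δ) with hY
  have hφ : ∀ φ : K →+* ℂ, φ Y = ∑ m ∈ S, (c m : ℂ) * (φ (x m) - φ δ) := by
    intro φ
    have e1 : (Y : K) = ∑ m ∈ S, (c m : K) * ((x m : K) - (δ : K)) := by
      change algebraMap (𝓞 K) K Y = _
      rw [hY, map_sum]
      refine Finset.sum_congr rfl fun m _ => ?_
      rw [map_mul, map_sub, map_intCast]
    rw [e1, map_sum]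
    refine Finset.sum_congr rfl fun m _ => ?_
    rw [map_mul, map_sub, map_intCast]
  have hψ : ψ Y = ψ δ * ((Λ : ℝ) : ℂ) := by
    rw [hφ, hΛ]
    push_cast
    rw [Finset.mul_sum]
    refine Finset.sum_congr rfl fun m hm => ?_
    rw [(hx m (hST hm)).1]
    ring
  have hδK : (δ : K) ≠ 0 := by
    rwa [Ne, RingOfIntegers.coe_eq_zero_iff]
  have hYne : Y ≠ 0 := by
    intro h
    rw [h] at hψ
    have h4 : ψ ((0 : 𝓞 K) : K) = 0 := by simp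
    rw [h4] at hψ
    rcases mul_eq_zero.1 hψ.symm with h5 | h5
    · exact hδK ((map_eq_zero ψ).1 h5)
    · have h6 : Λ = 0 := by exact_mod_cast h5
      rw [h6, abs_zero] at hΛ0
      exact lt_irrefl _ hΛ0
  have hbd : ∀ φ : K →+* ℂ, ‖φ Y‖ ≤ 2 * (s * B) * H := by
    intro φ
    rw [hφ]
    refine (norm_sum_le _ _).trans ?_
    have h4 : 2 * (s * B) * H = s * (B * (2 * H)) := by ring
    rw [h4, hs, ← nsmul_eq_mul]
    refine Finset.sum_le_card_nsmul _ _ _ fun m hm => ?_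
    rw [norm_mul, Complex.norm_intCast]
    refine mul_le_mul (hcB m hm) ?_ (norm_nonneg _) (by linarith)
    have h5 := norm_sub_le (φ (x m)) (φ δ)
    have h6 := (hx m (hST hm)).2 φ
    have h7 := hδH φ
    linarith
  have h4 := norm_bound ψ Y hYne _ hbd
  rw [hK, hψ, norm_mul, Complex.norm_real, Real.norm_eq_abs] at h4
  have hsB0 : 0 < s * B := by positivity
  have h5 : 1 ≤ H ^ d * |Λ| * (2 ^ (d - 1) * ((1 + ε') ^ (d - 1)) ^ n) := by
    calc (1 : ℝ) ≤ ‖ψ δ‖ * |Λ| * (2 * (s * B) * H) ^ (d - 1) := h4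
      _ ≤ H * |Λ| * (2 * (1 + ε') ^ n * H) ^ (d - 1) := by
          have := hδH ψ
          gcongr
      _ = (H * H ^ (d - 1)) * |Λ| * (2 ^ (d - 1) * ((1 + ε') ^ (d - 1)) ^ n) := by
          rw [mul_pow, mul_pow, ← pow_mul, ← pow_mul, mul_comm n]
          ring
      _ = _ := by rw [← pow_succ', Nat.sub_add_cancel hd]
  have h6 : ((1 + ε / 4) * (1 + ε') ^ (d - 1)) ^ n * H ^ d ≤ ((1 - ε') * s) ^ n := by
    rw [← hyn, ← mul_pow]
    refine pow_le_pow_left₀ (by positivity) ?_ n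
    have h7 := const_ineq ε hε hε1 d hd
    have h8 : 0 ≤ 1 - ε' := by linarith
    calc (1 + ε / 4) * (1 + ε') ^ (d - 1) * y ≤ (1 - ε') * (1 + ε) * y :=
          mul_le_mul_of_nonneg_right h7 (by linarith)
      _ = (1 - ε') * ((1 + ε) * y) := by ring
      _ ≤ (1 - ε') * s := mul_le_mul_of_nonneg_left hSy.le h8
  have h7 := h3 n (by omega)
  have h8 : |Λ| * (((1 + ε / 4) * (1 + ε') ^ (d - 1)) ^ n * H ^ d) ≤ 1 :=
    (mul_le_mul_of_nonneg_left h6 hΛ0.le).trans hupp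
  have h9 : 0 < H ^ d * |Λ| * ((1 + ε') ^ (d - 1)) ^ n := by positivity
  have h10 : (1 + ε / 4) ^ n * (H ^ d * |Λ| * ((1 + ε') ^ (d - 1)) ^ n) ≤ 1 := by
    refine le_trans (le_of_eq ?_) h8
    rw [mul_pow (1 + ε / 4)]
    ring
  have h11 : H ^ d * |Λ| * (2 ^ (d - 1) * ((1 + ε') ^ (d - 1)) ^ n) =
      2 ^ (d - 1) * (H ^ d * |Λ| * ((1 + ε') ^ (d - 1)) ^ n) := by ring
  rw [h11] at h5
  have h12 := mul_lt_mul_of_pos_right h7 h9
  linarith

end Pool.Agent.W5h23.CD
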